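import Pool.Agent.Q109.PC4.Types
import Pool.Agent.Q109.MinSep.Graph

/-!
# A clique meeting all holes
-/

namespace Q109.PC4

open SimpleGraph

variable {V : Type} {G : SimpleGraph V}

/-- an induced six-cycle -/
structure C6 (G : SimpleGraph V) (v0 v1 v2 v3 v4 v5 : V) : Prop where
  a01 : G.Adj v0 v1
  a12 : G.Adj v1 v2
  a23 : G.Adj v2 v3
  a34 : G.Adj v3 v4
  a45 : G.Adj v4 v5
  a50 : G.Adj v5 v0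
  n02 : ¬ G.Adj v0 v2
  n13 : ¬ G.Adj v1 v3
  n24 : ¬ G.Adj v2 v4
  n35 : ¬ G.Adj v3 v5
  n40 : ¬ G.Adj v4 v0
  n51 : ¬ G.Adj v5 v1
  n03 : ¬ G.Adj v0 v3
  n14 : ¬ G.Adj v1 v4
  n25 : ¬ G.Adj v2 v5

theorem C6.rot {v0 v1 v2 v3 v4 v5 : V} (h : C6 G v0 v1 v2 v3 v4 v5) :
    C6 G v1 v2 v3 v4 v5 v0 :=
  ⟨h.a12, h.a23, h.a34, h.a45, h.a50, h.a01, h.n13, h.n24, h.n35, h.n40, h.n51, h.n02,
    h.n14, h.n25, fun e => h.n03 e.symm⟩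

theorem prop6 (a b c d e f : Prop) (h1 : a ∧ c → b) (h2 : b ∧ d → c) (h3 : c ∧ e → d)
    (h4 : d ∧ f → e) (h5 : e ∧ a → f) (h6 : f ∧ b → a)
    (p0 : ((a ∨ b) ∨ c) ∨ d) (p1 : ((b ∨ c) ∨ d) ∨ e) (p2 : ((c ∨ d) ∨ e) ∨ f)
    (p3 : ((d ∨ e) ∨ f) ∨ a) (p4 : ((e ∨ f) ∨ a) ∨ b) (p5 : ((f ∨ a) ∨ b) ∨ c)
    (q0 : (a ∧ ¬ b) ∧ ¬ c → e) (q1 : (b ∧ ¬ c) ∧ ¬ d → f) (q2 : (c ∧ ¬ d) ∧ ¬ e → a)
    (q3 : (d ∧ ¬ e) ∧ ¬ f → b) (q4 : (e ∧ ¬ f) ∧ ¬ a → c) (q5 : (f ∧ ¬ a) ∧ ¬ b → d) :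
    (a ∧ b ∧ c ∧ d ∧ e ∧ f) ∨
    (f ∧ a ∧ b ∧ ¬ c ∧ ¬ d ∧ ¬ e) ∨ (a ∧ b ∧ c ∧ ¬ d ∧ ¬ e ∧ ¬ f) ∨
    (b ∧ c ∧ d ∧ ¬ e ∧ ¬ f ∧ ¬ a) ∨ (c ∧ d ∧ e ∧ ¬ f ∧ ¬ a ∧ ¬ b) ∨
    (d ∧ e ∧ f ∧ ¬ a ∧ ¬ b ∧ ¬ c) ∨ (e ∧ f ∧ a ∧ ¬ b ∧ ¬ c ∧ ¬ d) ∨
    (a ∧ b ∧ c ∧ d ∧ ¬ e ∧ ¬ f) ∨ (b ∧ c ∧ d ∧ e ∧ ¬ f ∧ ¬ a) ∨
    (c ∧ d ∧ e ∧ f ∧ ¬ a ∧ ¬ b) ∨ (d ∧ e ∧ f ∧ a ∧ ¬ b ∧ ¬ c) ∨
    (e ∧ f ∧ a ∧ b ∧ ¬ c ∧ ¬ d) ∨ (f ∧ a ∧ b ∧ c ∧ ¬ d ∧ ¬ e) := by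
  by_cases ha : a <;> by_cases hb : b <;> by_cases hc : c <;> by_cases hd : d <;>
    by_cases he : e <;> by_cases hf : f <;> simp_all

/-- attachments to a six-hole of a vertex outside it -/
theorem type6 (h : Cls G) {v0 v1 v2 v3 v4 v5 : V} (c : C6 G v0 v1 v2 v3 v4 v5) (x : V)
    (x0 : x ≠ v0) (x1 : x ≠ v1) (x2 : x ≠ v2) (x3 : x ≠ v3) (x4 : x ≠ v4) (x5 : x ≠ v5) :
    (G.Adj x v0 ∧ G.Adj x v1 ∧ G.Adj x v2 ∧ G.Adj x v3 ∧ G.Adj x v4 ∧ G.Adj x v5) ∨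
    (G.Adj x v5 ∧ G.Adj x v0 ∧ G.Adj x v1 ∧ ¬ G.Adj x v2 ∧ ¬ G.Adj x v3 ∧ ¬ G.Adj x v4) ∨
    (G.Adj x v0 ∧ G.Adj x v1 ∧ G.Adj x v2 ∧ ¬ G.Adj x v3 ∧ ¬ G.Adj x v4 ∧ ¬ G.Adj x v5) ∨
    (G.Adj x v1 ∧ G.Adj x v2 ∧ G.Adj x v3 ∧ ¬ G.Adj x v4 ∧ ¬ G.Adj x v5 ∧ ¬ G.Adj x v0) ∨
    (G.Adj x v2 ∧ G.Adj x v3 ∧ G.Adj x v4 ∧ ¬ G.Adj x v5 ∧ ¬ G.Adj x v0 ∧ ¬ G.Adj x v1) ∨
    (G.Adj x v3 ∧ G.Adj x v4 ∧ G.Adj x v5 ∧ ¬ G.Adj x v0 ∧ ¬ G.Adj x v1 ∧ ¬ G.Adj x v2) ∨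
    (G.Adj x v4 ∧ G.Adj x v5 ∧ G.Adj x v0 ∧ ¬ G.Adj x v1 ∧ ¬ G.Adj x v2 ∧ ¬ G.Adj x v3) ∨
    (G.Adj x v0 ∧ G.Adj x v1 ∧ G.Adj x v2 ∧ G.Adj x v3 ∧ ¬ G.Adj x v4 ∧ ¬ G.Adj x v5) ∨
    (G.Adj x v1 ∧ G.Adj x v2 ∧ G.Adj x v3 ∧ G.Adj x v4 ∧ ¬ G.Adj x v5 ∧ ¬ G.Adj x v0) ∨
    (G.Adj x v2 ∧ G.Adj x v3 ∧ G.Adj x v4 ∧ G.Adj x v5 ∧ ¬ G.Adj x v0 ∧ ¬ G.Adj x v1) ∨
    (G.Adj x v3 ∧ G.Adj x v4 ∧ G.Adj x v5 ∧ G.Adj x v0 ∧ ¬ G.Adj x v1 ∧ ¬ G.Adj x v2) ∨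
    (G.Adj x v4 ∧ G.Adj x v5 ∧ G.Adj x v0 ∧ G.Adj x v1 ∧ ¬ G.Adj x v2 ∧ ¬ G.Adj x v3) ∨
    (G.Adj x v5 ∧ G.Adj x v0 ∧ G.Adj x v1 ∧ G.Adj x v2 ∧ ¬ G.Adj x v3 ∧ ¬ G.Adj x v4) := by
  have cc : ∀ {a b d : V}, G.Adj a b → G.Adj b d → ¬ G.Adj a d → a ≠ d → x ≠ b →
      G.Adj x a ∧ G.Adj x d → G.Adj x b := by
    rintro a b d hab hbd had hne hxb ⟨h1, h2⟩
    by_contra hcon
    exact h.c4 x a b d h1 hab hbd h2.symm hcon had hxb hne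
  have pp : ∀ {a b d e : V}, G.Adj a b → G.Adj b d → G.Adj d e → ¬ G.Adj a d → ¬ G.Adj a e →
      ¬ G.Adj b e → ((G.Adj x a ∨ G.Adj x b) ∨ G.Adj x d) ∨ G.Adj x e := by
    intro a b d e h1 h2 h3 h4 h5 h6
    by_contra hcon
    push Not at hcon
    exact h.p a b d e x h1 h2 h3 h4 h5 h6 hcon.1.1.1 hcon.1.1.2 hcon.1.2 hcon.2
  have qq : ∀ {a b d e : V}, G.Adj a b → G.Adj b d → ¬ G.Adj a d → ¬ G.Adj e a →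
      ¬ G.Adj e b → ¬ G.Adj e d → (G.Adj x a ∧ ¬ G.Adj x b) ∧ ¬ G.Adj x d → G.Adj x e := by
    rintro a b d e h1 h2 h3 h4 h5 h6 ⟨⟨h7, h8⟩, h9⟩
    by_contra hcon
    exact h.p x a b d e h7 h1 h2 h8 h9 h3 (fun h => hcon h.symm) h4 h5 h6
  have s0 : ∀ {p q : V}, ¬ G.Adj p q → ¬ G.Adj q p := fun h1 h2 => h1 h2.symm
  exact prop6 _ _ _ _ _ _
    (cc c.a01 c.a12 c.n02 (ne_of h c.a50.symm c.n25) x1)
    (cc c.a12 c.a23 c.n13 (ne_of h c.a01.symm (s0 c.n03)) x2)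
    (cc c.a23 c.a34 c.n24 (ne_of h c.a12.symm (s0 c.n14)) x3)
    (cc c.a34 c.a45 c.n35 (ne_of h c.a23.symm (s0 c.n25)) x4)
    (cc c.a45 c.a50 c.n40 (ne_of h c.a34.symm c.n03) x5)
    (cc c.a50 c.a01 c.n51 (ne_of h c.a45.symm c.n14) x0)
    (pp c.a01 c.a12 c.a23 c.n02 c.n03 c.n13)
    (pp c.a12 c.a23 c.a34 c.n13 c.n14 c.n24)
    (pp c.a23 c.a34 c.a45 c.n24 c.n25 c.n35)
    (pp c.a34 c.a45 c.a50 c.n35 (s0 c.n03) c.n40)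
    (pp c.a45 c.a50 c.a01 c.n40 (s0 c.n14) c.n51)
    (pp c.a50 c.a01 c.a12 c.n51 (s0 c.n25) c.n02)
    (qq c.a01 c.a12 c.n02 c.n40 (s0 c.n14) (s0 c.n24))
    (qq c.a12 c.a23 c.n13 c.n51 (s0 c.n25) (s0 c.n35))
    (qq c.a23 c.a34 c.n24 c.n02 c.n03 (s0 c.n40))
    (qq c.a34 c.a45 c.n35 c.n13 c.n14 (s0 c.n51))
    (qq c.a45 c.a50 c.n40 c.n24 c.n25 (s0 c.n02))
    (qq c.a50 c.a01 c.n51 c.n35 (s0 c.n03) (s0 c.n13))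

/-- a vertex outside a six-hole is adjacent to three consecutive vertices of it -/
theorem three6 (h : Cls G) {v0 v1 v2 v3 v4 v5 : V} (c : C6 G v0 v1 v2 v3 v4 v5) (x : V)
    (x0 : x ≠ v0) (x1 : x ≠ v1) (x2 : x ≠ v2) (x3 : x ≠ v3) (x4 : x ≠ v4) (x5 : x ≠ v5) :
    (G.Adj x v0 ∧ G.Adj x v1 ∧ G.Adj x v2) ∨ (G.Adj x v1 ∧ G.Adj x v2 ∧ G.Adj x v3) ∨
    (G.Adj x v2 ∧ G.Adj x v3 ∧ G.Adj x v4) ∨ (G.Adj x v3 ∧ G.Adj x v4 ∧ G.Adj x v5) ∨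
    (G.Adj x v4 ∧ G.Adj x v5 ∧ G.Adj x v0) ∨ (G.Adj x v5 ∧ G.Adj x v0 ∧ G.Adj x v1) := by
  have := type6 h c x x0 x1 x2 x3 x4 x5
  tauto

/-- `K` is a clique through `v` and the other neighbours of `v` fall into two anticomplete
cliques -/
structure Good (G : SimpleGraph V) (K : Set V) (v : V) : Prop where
  clique : G.IsClique K
  mem : v ∈ K
  three : ∀ x y z, x ∉ K → y ∉ K → z ∉ K → G.Adj v x → G.Adj v y → G.Adj v z → G.Adj x y →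
    G.Adj y z → ¬ G.Adj x z → x ≠ z → False

theorem Good.of_sides {K : Set V} {v : V} (hK : G.IsClique K) (hv : v ∈ K) (P Q : V → Prop)
    (hPQ : ∀ x, G.Adj v x → x ∉ K → P x ∨ Q x)
    (hP : ∀ x y, P x → P y → x ≠ y → G.Adj x y) (hQ : ∀ x y, Q x → Q y → x ≠ y → G.Adj x y)
    (hn : ∀ x y, P x → Q y → ¬ G.Adj x y) : Good G K v := by
  refine ⟨hK, hv, ?_⟩
  intro x y z hx hy hz vx vy vz hxy hyz hxz hne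
  rcases hPQ x vx hx with h1 | h1
  · rcases hPQ y vy hy with h2 | h2
    · rcases hPQ z vz hz with h3 | h3
      · exact hxz (hP x z h1 h3 hne)
      · exact hn y z h2 h3 hyz
    · exact hn x y h1 h2 hxy
  · rcases hPQ y vy hy with h2 | h2
    · exact hn y x h2 h1 hxy.symm
    · rcases hPQ z vz hz with h3 | h3
      · exact hn z y h3 h2 hyz.symm
      · exact hxz (hQ x z h1 h3 hne)

/-- no six-hole avoids a good clique -/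
theorem Good.no6 (h : Cls G) {K : Set V} {v : V} (g : Good G K v) {w0 w1 w2 w3 w4 w5 : V}
    (c : C6 G w0 w1 w2 w3 w4 w5) (k0 : w0 ∉ K) (k1 : w1 ∉ K) (k2 : w2 ∉ K) (k3 : w3 ∉ K)
    (k4 : w4 ∉ K) (k5 : w5 ∉ K) : False := by
  have ne : ∀ {w}, w ∉ K → v ≠ w := fun hw e => hw (e ▸ g.mem)
  have s0 : ∀ {p q : V}, ¬ G.Adj p q → ¬ G.Adj q p := fun h1 h2 => h1 h2.symm
  rcases three6 h c v (ne k0) (ne k1) (ne k2) (ne k3) (ne k4) (ne k5) with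
    ⟨h1, h2, h3⟩ | ⟨h1, h2, h3⟩ | ⟨h1, h2, h3⟩ | ⟨h1, h2, h3⟩ | ⟨h1, h2, h3⟩ | ⟨h1, h2, h3⟩
  · exact g.three _ _ _ k0 k1 k2 h1 h2 h3 c.a01 c.a12 c.n02 (ne_of h c.a50.symm c.n25)
  · exact g.three _ _ _ k1 k2 k3 h1 h2 h3 c.a12 c.a23 c.n13 (ne_of h c.a01.symm (s0 c.n03))
  · exact g.three _ _ _ k2 k3 k4 h1 h2 h3 c.a23 c.a34 c.n24 (ne_of h c.a12.symm (s0 c.n14))
  · exact g.three _ _ _ k3 k4 k5 h1 h2 h3 c.a34 c.a45 c.n35 (ne_of h c.a23.symm (s0 c.n25))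
  · exact g.three _ _ _ k4 k5 k0 h1 h2 h3 c.a45 c.a50 c.n40 (ne_of h c.a34.symm c.n03)
  · exact g.three _ _ _ k5 k0 k1 h1 h2 h3 c.a50 c.a01 c.n51 (ne_of h c.a45.symm c.n14)

/-! ### The case of a six-hole in a graph without five-holes -/

theorem good6 (h : Cls G) (h5 : ∀ a b c d e, ¬ C5 G a b c d e) {v0 v1 v2 v3 v4 v5 : V}
    (c : C6 G v0 v1 v2 v3 v4 v5) : ∃ K v, Good G K v := by
  have s0 : ∀ {p q : V}, ¬ G.Adj p q → ¬ G.Adj q p := fun h1 h2 => h1 h2.symm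
  -- the classes
  have ht : ∀ x, (G.Adj x v0 ∧ G.Adj x v1 ∧ G.Adj x v2 ∧ G.Adj x v3 ∧ G.Adj x v4 ∧
      G.Adj x v5) ∨
      (G.Adj x v5 ∧ G.Adj x v1 ∧ ¬ G.Adj x v2 ∧ ¬ G.Adj x v3 ∧ ¬ G.Adj x v4) ∨
      (G.Adj x v0 ∧ G.Adj x v2 ∧ ¬ G.Adj x v3 ∧ ¬ G.Adj x v4 ∧ ¬ G.Adj x v5) ∨
      (G.Adj x v4 ∧ G.Adj x v0 ∧ ¬ G.Adj x v1 ∧ ¬ G.Adj x v2 ∧ ¬ G.Adj x v3) ∨
      ¬ G.Adj x v0 := by
    intro x
    by_cases e0 : x = v0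
    · subst e0
      exact Or.inr (Or.inl ⟨c.a50.symm, c.a01, c.n02, c.n03, s0 c.n40⟩)
    by_cases e1 : x = v1
    · subst e1
      exact Or.inr (Or.inr (Or.inl ⟨c.a01.symm, c.a12, c.n13, c.n14, s0 c.n51⟩))
    by_cases e2 : x = v2
    · subst e2
      exact Or.inr (Or.inr (Or.inr (Or.inr (s0 c.n02))))
    by_cases e3 : x = v3
    · subst e3
      exact Or.inr (Or.inr (Or.inr (Or.inr (s0 c.n03))))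
    by_cases e4 : x = v4
    · subst e4
      exact Or.inr (Or.inr (Or.inr (Or.inr c.n40)))
    by_cases e5 : x = v5
    · subst e5
      exact Or.inr (Or.inr (Or.inr (Or.inl ⟨c.a45.symm, c.a50, c.n51, s0 c.n25, s0 c.n35⟩)))
    have f4 : ∀ {p q r s : V}, G.Adj x p → G.Adj p q → G.Adj q r → G.Adj r s → G.Adj s x →
        ¬ G.Adj x q → ¬ G.Adj x r → ¬ G.Adj p r → ¬ G.Adj p s → ¬ G.Adj q s → False := by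
      intro p q r s h1 h2 h3 h4 h5' h6 h7 h8 h9 h10
      exact h5 x p q r s ⟨h1, h2, h3, h4, h5', h6, h8, h10, s0 h7, s0 h9⟩
    rcases type6 h c x e0 e1 e2 e3 e4 e5 with t | t | t | t | t | t | t | t | t | t | t | t | t
    · exact Or.inl t
    · exact Or.inr (Or.inl ⟨t.1, t.2.2.1, t.2.2.2.1, t.2.2.2.2.1, t.2.2.2.2.2⟩)
    · exact Or.inr (Or.inr (Or.inl ⟨t.1, t.2.2.1, t.2.2.2.1, t.2.2.2.2.1, t.2.2.2.2.2⟩))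
    · exact Or.inr (Or.inr (Or.inr (Or.inr t.2.2.2.2.2)))
    · exact Or.inr (Or.inr (Or.inr (Or.inr t.2.2.2.2.1)))
    · exact Or.inr (Or.inr (Or.inr (Or.inr t.2.2.2.1)))
    · exact Or.inr (Or.inr (Or.inr (Or.inl ⟨t.1, t.2.2.1, t.2.2.2.1, t.2.2.2.2.1, t.2.2.2.2.2⟩)))
    · exact (f4 t.2.2.2.1 c.a34 c.a45 c.a50 t.1.symm t.2.2.2.2.1 t.2.2.2.2.2 c.n35
        (s0 c.n03) c.n40).elim
    · exact Or.inr (Or.inr (Or.inr (Or.inr t.2.2.2.2.2)))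
    · exact Or.inr (Or.inr (Or.inr (Or.inr t.2.2.2.2.1)))
    · exact (f4 t.2.2.2.1 c.a01 c.a12 c.a23 t.1.symm t.2.2.2.2.1 t.2.2.2.2.2 c.n02
        c.n03 c.n13).elim
    · exact (f4 t.2.2.2.1 c.a12 c.a23 c.a34 t.1.symm t.2.2.2.2.1 t.2.2.2.2.2 c.n13
        c.n14 c.n24).elim
    · exact (f4 t.2.2.2.1 c.a23 c.a34 c.a45 t.1.symm t.2.2.2.2.1 t.2.2.2.2.2 c.n24
        c.n25 c.n35).elim
  refine ⟨{x | (G.Adj x v0 ∧ G.Adj x v1 ∧ G.Adj x v2 ∧ G.Adj x v3 ∧ G.Adj x v4 ∧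
      G.Adj x v5) ∨
      (G.Adj x v5 ∧ G.Adj x v1 ∧ ¬ G.Adj x v2 ∧ ¬ G.Adj x v3 ∧ ¬ G.Adj x v4)}, v0, ?_⟩
  have hne51 : v5 ≠ v1 := ne_of h c.a45.symm c.n14
  have hne02 : v0 ≠ v2 := ne_of h c.a50.symm c.n25
  have hne40 : v4 ≠ v0 := ne_of h c.a34.symm c.n03
  refine Good.of_sides ?_ (Or.inr ⟨c.a50.symm, c.a01, c.n02, c.n03, s0 c.n40⟩)
    (fun x => G.Adj x v0 ∧ G.Adj x v2 ∧ ¬ G.Adj x v3 ∧ ¬ G.Adj x v4 ∧ ¬ G.Adj x v5)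
    (fun x => G.Adj x v4 ∧ G.Adj x v0 ∧ ¬ G.Adj x v1 ∧ ¬ G.Adj x v2 ∧ ¬ G.Adj x v3) ?_ ?_ ?_ ?_
  · intro x hx y hy hxy
    have hx' : G.Adj x v5 ∧ G.Adj x v1 := by
      rcases hx with t | t
      · exact ⟨t.2.2.2.2.2, t.2.1⟩
      · exact ⟨t.1, t.2.1⟩
    have hy' : G.Adj y v5 ∧ G.Adj y v1 := by
      rcases hy with t | t
      · exact ⟨t.2.2.2.2.2, t.2.1⟩
      · exact ⟨t.1, t.2.1⟩
    exact two_common h c.n51 hne51 hxy hx'.1 hx'.2 hy'.1 hy'.2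
  · intro x hvx hx
    rcases ht x with t | t | t | t | t
    · exact absurd (Or.inl t) hx
    · exact absurd (Or.inr t) hx
    · exact Or.inl t
    · exact Or.inr t
    · exact absurd hvx.symm t
  · intro x y hx hy hxy
    exact two_common h c.n02 hne02 hxy hx.1 hx.2.1 hy.1 hy.2.1
  · intro x y hx hy hxy
    exact two_common h c.n40 hne40 hxy hx.1 hx.2.1 hy.1 hy.2.1
  · intro x y hx hy hxy
    exact h5 x y v4 v3 v2 ⟨hxy, hy.1, c.a34.symm, c.a23.symm, hx.2.1.symm, hx.2.2.2.1,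
      hy.2.2.2.2, s0 c.n24, s0 hx.2.2.1, s0 hy.2.2.2.1⟩

/-! ### The case of a five-hole -/

section five
variable {v0 v1 v2 v3 v4 : V}

/-- the clique -/
def KK (G : SimpleGraph V) (v0 v1 v2 v3 v4 : V) : Set V :=
  {x | Aof G v4 v1 v2 v3 x ∨ Uof G v0 v1 v2 v3 v4 x}

theorem side (h : Cls G) (c : C5 G v0 v1 v2 v3 v4) (b2 : ∀ x, ¬ Bof G v4 v0 v2 v3 v1 x)
    (b3 : ∀ x, ¬ Bof G v0 v1 v3 v4 v2 x) (x : V) (hx : G.Adj v0 x)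
    (hK : x ∉ KK G v0 v1 v2 v3 v4) : Aof G v0 v2 v3 v4 x ∨ Aof G v3 v0 v1 v2 x := by
  rcases type5 h c x with t | t | t | t | t | t | t | t | t | t | t
  · exact absurd (Or.inr t) hK
  · exact absurd (Or.inl t) hK
  · exact Or.inl t
  · exact absurd hx.symm t.2.2.2
  · exact absurd hx.symm t.2.2.1
  · exact Or.inr t
  · exact absurd hx.symm t.2.2.1
  · exact absurd hx.symm t.2.2.2.2
  · exact absurd t (b2 x)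
  · exact absurd t (b3 x)
  · exact absurd hx.symm t.2.2.2.1

theorem goodKK (h : Cls G) (c : C5 G v0 v1 v2 v3 v4) (b2 : ∀ x, ¬ Bof G v4 v0 v2 v3 v1 x)
    (b3 : ∀ x, ¬ Bof G v0 v1 v3 v4 v2 x) : Good G (KK G v0 v1 v2 v3 v4) v0 := by
  have s0 : ∀ {p q : V}, ¬ G.Adj p q → ¬ G.Adj q p := fun h1 h2 => h1 h2.symm
  refine Good.of_sides ?_ (Or.inl ⟨c.a40.symm, c.a01, c.n02, s0 c.n30⟩)
    (Aof G v0 v2 v3 v4) (Aof G v3 v0 v1 v2) (side h c b2 b3) ?_ ?_ ?_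
  · intro x hx y hy hxy
    have hx' : G.Adj x v4 ∧ G.Adj x v1 := by
      rcases hx with t | t
      · exact ⟨t.1, t.2.1⟩
      · exact ⟨t.2.2.2.2, t.2.1⟩
    have hy' : G.Adj y v4 ∧ G.Adj y v1 := by
      rcases hy with t | t
      · exact ⟨t.1, t.2.1⟩
      · exact ⟨t.2.2.2.2, t.2.1⟩
    exact two_common h c.n41 c.rot.rot.rot.rot.ne02 hxy hx'.1 hx'.2 hy'.1 hy'.2
  · intro x y hx hy hxy
    exact two_common h c.n02 c.ne02 hxy hx.1 hx.2.1 hy.1 hy.2.1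
  · intro x y hx hy hxy
    exact two_common h c.n30 c.rot.rot.rot.ne02 hxy hx.1 hx.2.1 hy.1 hy.2.1
  · intro x y hx hy hxy
    exact AA2 h c.rot.rot.rot.rot hy hx hxy.symm

theorem far1 (h : Cls G) (c : C5 G v0 v1 v2 v3 v4) (b2 : ∀ x, ¬ Bof G v4 v0 v2 v3 v1 x)
    (b3 : ∀ x, ¬ Bof G v0 v1 v3 v4 v2 x) {x a : V} (hK : x ∉ KK G v0 v1 v2 v3 v4)
    (hx0 : ¬ G.Adj x v0) (hxa : G.Adj x a) (ha : Aof G v0 v2 v3 v4 a) : ¬ G.Adj x v4 := by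
  intro hx4
  rcases type5 h c x with t | t | t | t | t | t | t | t | t | t | t
  · exact hK (Or.inr t)
  · exact hK (Or.inl t)
  · exact t.2.2.2 hx4
  · exact t.2.2.1 hx4
  · exact AA2 h c.rot ha t hxa.symm
  · exact hx0 t.2.1
  · exact t.2.2.2.2 hx4
  · exact BA0 h c.rot ha t hxa.symm
  · exact b2 x t
  · exact b3 x t
  · exact t.2.2.1 hx4

theorem far4 (h : Cls G) (c : C5 G v0 v1 v2 v3 v4) (b2 : ∀ x, ¬ Bof G v4 v0 v2 v3 v1 x)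
    (b3 : ∀ x, ¬ Bof G v0 v1 v3 v4 v2 x) {x a : V} (hK : x ∉ KK G v0 v1 v2 v3 v4)
    (hx0 : ¬ G.Adj x v0) (hxa : G.Adj x a) (ha : Aof G v3 v0 v1 v2 a) : ¬ G.Adj x v1 := by
  intro hx1
  rcases type5 h c x with t | t | t | t | t | t | t | t | t | t | t
  · exact hK (Or.inr t)
  · exact hK (Or.inl t)
  · exact hx0 t.1
  · exact AA2 h c.rot.rot t ha hxa
  · exact t.2.2.2 hx1
  · exact t.2.2.1 hx1
  · exact t.2.2.2.1 hx1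
  · exact t.2.2.1 hx1
  · exact b2 x t
  · exact b3 x t
  · exact BA0 h c.rot.rot.rot.rot ha t hxa.symm

/-- the remaining pattern of a five-hole: two adjacent neighbours of `v0` -/
theorem no_pair (h : Cls G) (c : C5 G v0 v1 v2 v3 v4) (b2 : ∀ x, ¬ Bof G v4 v0 v2 v3 v1 x)
    (b3 : ∀ x, ¬ Bof G v0 v1 v3 v4 v2 x) {x a b y : V} (hx : x ∉ KK G v0 v1 v2 v3 v4)
    (ha : a ∉ KK G v0 v1 v2 v3 v4) (hb : b ∉ KK G v0 v1 v2 v3 v4)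
    (hy : y ∉ KK G v0 v1 v2 v3 v4) (hxa : G.Adj x a) (hab : G.Adj a b) (hby : G.Adj b y)
    (hxb : ¬ G.Adj x b) (hxy : ¬ G.Adj x y) (hay : ¬ G.Adj a y) (va : G.Adj v0 a)
    (vb : G.Adj v0 b) (vx : ¬ G.Adj v0 x) (vy : ¬ G.Adj v0 y) : False := by
  have s0 : ∀ {p q : V}, ¬ G.Adj p q → ¬ G.Adj q p := fun h1 h2 => h1 h2.symm
  rcases side h c b2 b3 a va ha with h1 | h1 <;> rcases side h c b2 b3 b vb hb with h2 | h2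
  · exact h.p x a b y v4 hxa hab hby hxb hxy hay
      (s0 (far1 h c b2 b3 hx (s0 vx) hxa h1)) (s0 h1.2.2.2) (s0 h2.2.2.2)
      (s0 (far1 h c b2 b3 hy (s0 vy) hby.symm h2))
  · exact AA2 h c.rot.rot.rot.rot h2 h1 hab.symm
  · exact AA2 h c.rot.rot.rot.rot h1 h2 hab
  · exact h.p x a b y v1 hxa hab hby hxb hxy hay
      (s0 (far4 h c b2 b3 hx (s0 vx) hxa h1)) (s0 h1.2.2.1) (s0 h2.2.2.1)
      (s0 (far4 h c b2 b3 hy (s0 vy) hby.symm h2))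

theorem no5 (h : Cls G) (c : C5 G v0 v1 v2 v3 v4) (b2 : ∀ x, ¬ Bof G v4 v0 v2 v3 v1 x)
    (b3 : ∀ x, ¬ Bof G v0 v1 v3 v4 v2 x) {w0 w1 w2 w3 w4 : V} (d : C5 G w0 w1 w2 w3 w4)
    (k0 : w0 ∉ KK G v0 v1 v2 v3 v4) (k1 : w1 ∉ KK G v0 v1 v2 v3 v4)
    (k2 : w2 ∉ KK G v0 v1 v2 v3 v4) (k3 : w3 ∉ KK G v0 v1 v2 v3 v4)
    (k4 : w4 ∉ KK G v0 v1 v2 v3 v4) : False := by
  have s0 : ∀ {p q : V}, ¬ G.Adj p q → ¬ G.Adj q p := fun h1 h2 => h1 h2.symm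
  have g := goodKK h c b2 b3
  have ne : ∀ {w}, w ∉ KK G v0 v1 v2 v3 v4 → v0 ≠ w := fun hw e => hw (e ▸ g.mem)
  rcases type5 h d v0 with t | t | t | t | t | t | t | t | t | t | t
  · exact g.three w0 w1 w2 k0 k1 k2 t.1 t.2.1 t.2.2.1 d.a01 d.a12 d.n02 d.ne02
  · exact g.three w4 w0 w1 k4 k0 k1 t.1
      (two_common h d.n41 d.rot.rot.rot.rot.ne02 (ne k0) t.1 t.2.1 d.a40.symm d.a01) t.2.1
      d.a40 d.a01 d.n41 d.rot.rot.rot.rot.ne02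
  · exact g.three w0 w1 w2 k0 k1 k2 t.1
      (two_common h d.n02 d.ne02 (ne k1) t.1 t.2.1 d.a01.symm d.a12) t.2.1
      d.a01 d.a12 d.n02 d.ne02
  · exact g.three w1 w2 w3 k1 k2 k3 t.1
      (two_common h d.n13 d.rot.ne02 (ne k2) t.1 t.2.1 d.a12.symm d.a23) t.2.1
      d.a12 d.a23 d.n13 d.rot.ne02
  · exact g.three w2 w3 w4 k2 k3 k4 t.1
      (two_common h d.n24 d.rot.rot.ne02 (ne k3) t.1 t.2.1 d.a23.symm d.a34) t.2.1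
      d.a23 d.a34 d.n24 d.rot.rot.ne02
  · exact g.three w3 w4 w0 k3 k4 k0 t.1
      (two_common h d.n30 d.rot.rot.rot.ne02 (ne k4) t.1 t.2.1 d.a34.symm d.a40) t.2.1
      d.a34 d.a40 d.n30 d.rot.rot.rot.ne02
  · exact no_pair h c b2 b3 k1 k2 k3 k4 d.a12 d.a23 d.a34 d.n13 (s0 d.n41) d.n24
      t.1 t.2.1 t.2.2.2.1 t.2.2.2.2
  · exact no_pair h c b2 b3 k2 k3 k4 k0 d.a23 d.a34 d.a40 d.n24 (s0 d.n02) d.n30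
      t.1 t.2.1 t.2.2.2.1 t.2.2.2.2
  · exact no_pair h c b2 b3 k3 k4 k0 k1 d.a34 d.a40 d.a01 d.n30 (s0 d.n13) d.n41
      t.1 t.2.1 t.2.2.2.1 t.2.2.2.2
  · exact no_pair h c b2 b3 k4 k0 k1 k2 d.a40 d.a01 d.a12 d.n41 (s0 d.n24) d.n02
      t.1 t.2.1 t.2.2.2.1 t.2.2.2.2
  · exact no_pair h c b2 b3 k0 k1 k2 k3 d.a01 d.a12 d.a23 d.n02 (s0 d.n30) d.n13
      t.1 t.2.1 t.2.2.2.1 t.2.2.2.2

end five

theorem pick (p0 p1 p2 p3 p4 : Prop) (h0 : ¬ (p0 ∧ p2 ∧ p3)) (h1 : ¬ (p1 ∧ p3 ∧ p4))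
    (h2 : ¬ (p2 ∧ p4 ∧ p0)) (h3 : ¬ (p3 ∧ p0 ∧ p1)) (h4 : ¬ (p4 ∧ p1 ∧ p2)) :
    (¬ p2 ∧ ¬ p3) ∨ (¬ p3 ∧ ¬ p4) ∨ (¬ p4 ∧ ¬ p0) ∨ (¬ p0 ∧ ¬ p1) ∨ (¬ p1 ∧ ¬ p2) := by
  tauto

/-- after a rotation, `B_2` and `B_3` are empty -/
theorem rotate (h : Cls G) {v0 v1 v2 v3 v4 : V} (c : C5 G v0 v1 v2 v3 v4) :
    ∃ u0 u1 u2 u3 u4, C5 G u0 u1 u2 u3 u4 ∧ (∀ x, ¬ Bof G u4 u0 u2 u3 u1 x) ∧
      (∀ x, ¬ Bof G u0 u1 u3 u4 u2 x) := by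
  have key := pick (∃ x, Bof G v2 v3 v0 v1 v4 x) (∃ x, Bof G v3 v4 v1 v2 v0 x)
    (∃ x, Bof G v4 v0 v2 v3 v1 x) (∃ x, Bof G v0 v1 v3 v4 v2 x) (∃ x, Bof G v1 v2 v4 v0 v3 x)
    (fun ⟨⟨_, h1⟩, ⟨_, h2⟩, ⟨_, h3⟩⟩ => BBB h c h1 h2 h3)
    (fun ⟨⟨_, h1⟩, ⟨_, h2⟩, ⟨_, h3⟩⟩ => BBB h c.rot h1 h2 h3)
    (fun ⟨⟨_, h1⟩, ⟨_, h2⟩, ⟨_, h3⟩⟩ => BBB h c.rot.rot h1 h2 h3)
    (fun ⟨⟨_, h1⟩, ⟨_, h2⟩, ⟨_, h3⟩⟩ => BBB h c.rot.rot.rot h1 h2 h3)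
    (fun ⟨⟨_, h1⟩, ⟨_, h2⟩, ⟨_, h3⟩⟩ => BBB h c.rot.rot.rot.rot h1 h2 h3)
  simp only [not_exists] at key
  rcases key with ⟨h1, h2⟩ | ⟨h1, h2⟩ | ⟨h1, h2⟩ | ⟨h1, h2⟩ | ⟨h1, h2⟩
  · exact ⟨_, _, _, _, _, c, h1, h2⟩
  · exact ⟨_, _, _, _, _, c.rot, h1, h2⟩
  · exact ⟨_, _, _, _, _, c.rot.rot, h1, h2⟩
  · exact ⟨_, _, _, _, _, c.rot.rot.rot, h1, h2⟩
  · exact ⟨_, _, _, _, _, c.rot.rot.rot.rot, h1, h2⟩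

/-! ### From embeddings to the elementary form -/

theorem emb_adj {W : Type} {H : SimpleGraph W} {n : ℕ} (hn : 3 ≤ n) (e : cycleGraph n ↪g H)
    (i j : Fin n) : H.Adj (e i) (e j) ↔
    (i.1 + 1 = j.1 ∨ j.1 + 1 = i.1 ∨ (i.1 = 0 ∧ j.1 + 1 = n) ∨ (j.1 = 0 ∧ i.1 + 1 = n)) := by
  rw [e.map_adj_iff, Q109.MinSep.cyc_iff hn]

theorem emb5 {W : Type} {H : SimpleGraph W} (e : cycleGraph 5 ↪g H) :
    C5 H (e 0) (e 1) (e 2) (e 3) (e 4) := by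
  constructor <;> rw [emb_adj (by norm_num)] <;> decide

theorem emb6 {W : Type} {H : SimpleGraph W} (e : cycleGraph 6 ↪g H) :
    C6 H (e 0) (e 1) (e 2) (e 3) (e 4) (e 5) := by
  constructor <;> rw [emb_adj (by norm_num)] <;> decide

/-- the class has no holes of length other than five and six -/
theorem hole_len (h : Cls G) {n : ℕ} (hn : 4 ≤ n) (e : cycleGraph n ↪g G) : n = 5 ∨ n = 6 := by
  by_contra hcon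
  push Not at hcon
  rcases Nat.lt_or_ge n 7 with h7 | h7
  · have h4 : n = 4 := by omega
    subst h4
    refine h.c4 (e 0) (e 1) (e 2) (e 3) ?_ ?_ ?_ ?_ ?_ ?_ ?_ ?_
    · rw [emb_adj (by norm_num)]; decide
    · rw [emb_adj (by norm_num)]; decide
    · rw [emb_adj (by norm_num)]; decide
    · rw [emb_adj (by norm_num)]; decide
    · rw [emb_adj (by norm_num)]; decide
    · rw [emb_adj (by norm_num)]; decide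
    · exact fun h => absurd (e.injective h) (by decide)
    · exact fun h => absurd (e.injective h) (by decide)
  · refine h.p (e ⟨0, by omega⟩) (e ⟨1, by omega⟩) (e ⟨2, by omega⟩) (e ⟨3, by omega⟩)
      (e ⟨5, by omega⟩) ?_ ?_ ?_ ?_ ?_ ?_ ?_ ?_ ?_ ?_ <;>
      rw [emb_adj (by omega)] <;> norm_num <;> omega

/-- some clique meets all holes -/
theorem main (h : Cls G) : ∃ K : Set V, G.IsClique K ∧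
    ∀ n, 4 ≤ n → IsEmpty (cycleGraph n ↪g G.induce Kᶜ) := by
  have lift : ∀ {K : Set V} {n : ℕ}, (cycleGraph n ↪g G.induce Kᶜ) → (cycleGraph n ↪g G) :=
    fun e => (Embedding.induce _).comp e
  by_cases h5 : ∃ a b c d e, C5 G a b c d e
  · obtain ⟨a, b, c, d, e, hc⟩ := h5
    obtain ⟨v0, v1, v2, v3, v4, c, b2, b3⟩ := rotate h hc
    have g := goodKK h c b2 b3
    refine ⟨KK G v0 v1 v2 v3 v4, g.clique, ?_⟩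
    intro n hn
    constructor
    intro e
    rcases hole_len h hn (lift e) with rfl | rfl
    · have h5 := emb5 e
      exact no5 h c b2 b3 (w0 := (e 0).1) (w1 := (e 1).1) (w2 := (e 2).1) (w3 := (e 3).1)
        (w4 := (e 4).1) ⟨h5.a01, h5.a12, h5.a23, h5.a34, h5.a40, h5.n02, h5.n13, h5.n24,
          h5.n30, h5.n41⟩ (e 0).2 (e 1).2 (e 2).2 (e 3).2 (e 4).2
    · have h6 := emb6 e
      exact g.no6 h (w0 := (e 0).1) (w1 := (e 1).1) (w2 := (e 2).1) (w3 := (e 3).1)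
        (w4 := (e 4).1) (w5 := (e 5).1) ⟨h6.a01, h6.a12, h6.a23, h6.a34, h6.a45, h6.a50,
          h6.n02, h6.n13, h6.n24, h6.n35, h6.n40, h6.n51, h6.n03, h6.n14, h6.n25⟩
        (e 0).2 (e 1).2 (e 2).2 (e 3).2 (e 4).2 (e 5).2
  · have h5' : ∀ a b c d e, ¬ C5 G a b c d e := fun a b c d e hc => h5 ⟨a, b, c, d, e, hc⟩
    by_cases h6 : ∃ a b c d e f, C6 G a b c d e f
    · obtain ⟨a, b, c, d, e, f, hc⟩ := h6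
      obtain ⟨K, v, g⟩ := good6 h h5' hc
      refine ⟨K, g.clique, ?_⟩
      intro n hn
      constructor
      intro e
      rcases hole_len h hn (lift e) with rfl | rfl
      · have h5 := emb5 e
        exact h5' _ _ _ _ _ (⟨h5.a01, h5.a12, h5.a23, h5.a34, h5.a40, h5.n02, h5.n13,
          h5.n24, h5.n30, h5.n41⟩ : C5 G (e 0).1 (e 1).1 (e 2).1 (e 3).1 (e 4).1)
      · have h6 := emb6 e
        exact g.no6 h (w0 := (e 0).1) (w1 := (e 1).1) (w2 := (e 2).1) (w3 := (e 3).1)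
          (w4 := (e 4).1) (w5 := (e 5).1) ⟨h6.a01, h6.a12, h6.a23, h6.a34, h6.a45, h6.a50,
            h6.n02, h6.n13, h6.n24, h6.n35, h6.n40, h6.n51, h6.n03, h6.n14, h6.n25⟩
          (e 0).2 (e 1).2 (e 2).2 (e 3).2 (e 4).2 (e 5).2
    · refine ⟨∅, by simp, ?_⟩
      intro n hn
      constructor
      intro e
      rcases hole_len h hn (lift e) with rfl | rfl
      · have h5 := emb5 e
        exact h5' _ _ _ _ _ (⟨h5.a01, h5.a12, h5.a23, h5.a34, h5.a40, h5.n02, h5.n13,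
          h5.n24, h5.n30, h5.n41⟩ : C5 G (e 0).1 (e 1).1 (e 2).1 (e 3).1 (e 4).1)
      · have h6' := emb6 e
        exact h6 ⟨_, _, _, _, _, _, (⟨h6'.a01, h6'.a12, h6'.a23, h6'.a34, h6'.a45, h6'.a50,
          h6'.n02, h6'.n13, h6'.n24, h6'.n35, h6'.n40, h6'.n51, h6'.n03, h6'.n14, h6'.n25⟩ :
          C6 G (e 0).1 (e 1).1 (e 2).1 (e 3).1 (e 4).1 (e 5).1)⟩

end Q109.PC4
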