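import Mathlib

/-!
# `{P_4 + P_1, C_4}`-free graphs: how a vertex attaches to a hole
-/

namespace Q109.PC4

open SimpleGraph

variable {V : Type} {G : SimpleGraph V}

/-- the class, in elementary form -/
structure Cls (G : SimpleGraph V) : Prop where
  c4 : ∀ a b c d, G.Adj a b → G.Adj b c → G.Adj c d → G.Adj d a → ¬ G.Adj a c → ¬ G.Adj b d →
    a ≠ c → b ≠ d → False
  p : ∀ a b c d e, G.Adj a b → G.Adj b c → G.Adj c d → ¬ G.Adj a c → ¬ G.Adj a d →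
    ¬ G.Adj b d → ¬ G.Adj e a → ¬ G.Adj e b → ¬ G.Adj e c → ¬ G.Adj e d → False

/-- an induced five-cycle -/
structure C5 (G : SimpleGraph V) (v0 v1 v2 v3 v4 : V) : Prop where
  a01 : G.Adj v0 v1
  a12 : G.Adj v1 v2
  a23 : G.Adj v2 v3
  a34 : G.Adj v3 v4
  a40 : G.Adj v4 v0
  n02 : ¬ G.Adj v0 v2
  n13 : ¬ G.Adj v1 v3
  n24 : ¬ G.Adj v2 v4
  n30 : ¬ G.Adj v3 v0
  n41 : ¬ G.Adj v4 v1

theorem C5.rot {v0 v1 v2 v3 v4 : V} (h : C5 G v0 v1 v2 v3 v4) : C5 G v1 v2 v3 v4 v0 :=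
  ⟨h.a12, h.a23, h.a34, h.a40, h.a01, h.n13, h.n24, h.n30, h.n41, h.n02⟩

theorem ne_of (h : Cls G) {a b c : V} (h1 : G.Adj a c) (h2 : ¬ G.Adj b c) : a ≠ b := by
  have _ := h
  rintro rfl
  exact h2 h1

/-- adjacent to `l`, `r`, not to `n1`, `n2` -/
def Aof (G : SimpleGraph V) (l r n1 n2 x : V) : Prop :=
  G.Adj x l ∧ G.Adj x r ∧ ¬ G.Adj x n1 ∧ ¬ G.Adj x n2

/-- adjacent to `a`, `b`, not to `n0`, `n1`, `n4` -/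
def Bof (G : SimpleGraph V) (a b n0 n1 n4 x : V) : Prop :=
  G.Adj x a ∧ G.Adj x b ∧ ¬ G.Adj x n0 ∧ ¬ G.Adj x n1 ∧ ¬ G.Adj x n4

/-- adjacent to all -/
def Uof (G : SimpleGraph V) (v0 v1 v2 v3 v4 x : V) : Prop :=
  G.Adj x v0 ∧ G.Adj x v1 ∧ G.Adj x v2 ∧ G.Adj x v3 ∧ G.Adj x v4

theorem prop5 (a b c d e : Prop) (h1 : a → c → b) (h2 : b → d → c) (h3 : c → e → d)
    (h4 : d → a → e) (h5 : e → b → a) (p0 : b ∨ c ∨ d ∨ e) (p1 : c ∨ d ∨ e ∨ a)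
    (p2 : d ∨ e ∨ a ∨ b) (p3 : e ∨ a ∨ b ∨ c) (p4 : a ∨ b ∨ c ∨ d) :
    (a ∧ b ∧ c ∧ d ∧ e) ∨ (e ∧ b ∧ ¬ c ∧ ¬ d) ∨ (a ∧ c ∧ ¬ d ∧ ¬ e) ∨ (b ∧ d ∧ ¬ e ∧ ¬ a) ∨
      (c ∧ e ∧ ¬ a ∧ ¬ b) ∨ (d ∧ a ∧ ¬ b ∧ ¬ c) ∨
      (c ∧ d ∧ ¬ a ∧ ¬ b ∧ ¬ e) ∨ (d ∧ e ∧ ¬ b ∧ ¬ c ∧ ¬ a) ∨ (e ∧ a ∧ ¬ c ∧ ¬ d ∧ ¬ b) ∨
      (a ∧ b ∧ ¬ d ∧ ¬ e ∧ ¬ c) ∨ (b ∧ c ∧ ¬ e ∧ ¬ a ∧ ¬ d) := by
  by_cases ha : a <;> by_cases hb : b <;> by_cases hc : c <;> by_cases hd : d <;>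
    by_cases he : e <;> simp_all

/-- how a vertex attaches to a five-hole -/
theorem type5 (h : Cls G) {v0 v1 v2 v3 v4 : V} (c : C5 G v0 v1 v2 v3 v4) (x : V) :
    Uof G v0 v1 v2 v3 v4 x ∨ Aof G v4 v1 v2 v3 x ∨ Aof G v0 v2 v3 v4 x ∨ Aof G v1 v3 v4 v0 x ∨
      Aof G v2 v4 v0 v1 x ∨ Aof G v3 v0 v1 v2 x ∨
      Bof G v2 v3 v0 v1 v4 x ∨ Bof G v3 v4 v1 v2 v0 x ∨ Bof G v4 v0 v2 v3 v1 x ∨
      Bof G v0 v1 v3 v4 v2 x ∨ Bof G v1 v2 v4 v0 v3 x := by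
  by_cases e0 : x = v0
  · subst e0
    exact Or.inr (Or.inl ⟨c.a40.symm, c.a01, c.n02, fun h => c.n30 h.symm⟩)
  by_cases e1 : x = v1
  · subst e1
    exact Or.inr (Or.inr (Or.inl ⟨c.a01.symm, c.a12, c.n13, fun h => c.n41 h.symm⟩))
  by_cases e2 : x = v2
  · subst e2
    exact Or.inr (Or.inr (Or.inr (Or.inl ⟨c.a12.symm, c.a23, c.n24, fun h => c.n02 h.symm⟩)))
  by_cases e3 : x = v3
  · subst e3
    exact Or.inr (Or.inr (Or.inr (Or.inr (Or.inl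
      ⟨c.a23.symm, c.a34, c.n30, fun h => c.n13 h.symm⟩))))
  by_cases e4 : x = v4
  · subst e4
    exact Or.inr (Or.inr (Or.inr (Or.inr (Or.inr (Or.inl
      ⟨c.a34.symm, c.a40, c.n41, fun h => c.n24 h.symm⟩)))))
  have cc : ∀ {a b d : V}, G.Adj a b → G.Adj b d → ¬ G.Adj a d → a ≠ d → x ≠ b →
      G.Adj x a → G.Adj x d → G.Adj x b := by
    intro a b d hab hbd had hne hxb h1 h2
    by_contra hcon
    exact h.c4 x a b d h1 hab hbd h2.symm hcon had hxb hne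
  have pp : ∀ {a b d e : V}, G.Adj a b → G.Adj b d → G.Adj d e → ¬ G.Adj a d → ¬ G.Adj a e →
      ¬ G.Adj b e → G.Adj x a ∨ G.Adj x b ∨ G.Adj x d ∨ G.Adj x e := by
    intro a b d e h1 h2 h3 h4 h5 h6
    by_contra hcon
    push Not at hcon
    exact h.p a b d e x h1 h2 h3 h4 h5 h6 hcon.1 hcon.2.1 hcon.2.2.1 hcon.2.2.2
  refine prop5 _ _ _ _ _ ?_ ?_ ?_ ?_ ?_ ?_ ?_ ?_ ?_ ?_
  · exact cc c.a01 c.a12 c.n02 (ne_of h c.a40.symm (fun h => c.n24 h)) e1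
  · exact cc c.a12 c.a23 c.n13 (ne_of h c.a01.symm c.n30) e2
  · exact cc c.a23 c.a34 c.n24 (ne_of h c.a12.symm c.n41) e3
  · exact cc c.a34 c.a40 c.n30 (ne_of h c.a23.symm c.n02) e4
  · exact cc c.a40 c.a01 c.n41 (ne_of h c.a34.symm c.n13) e0
  · exact pp c.a12 c.a23 c.a34 c.n13 (fun h => c.n41 h.symm) c.n24
  · exact pp c.a23 c.a34 c.a40 c.n24 (fun h => c.n02 h.symm) c.n30
  · exact pp c.a34 c.a40 c.a01 c.n30 (fun h => c.n13 h.symm) c.n41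
  · exact pp c.a40 c.a01 c.a12 c.n41 (fun h => c.n24 h.symm) c.n02
  · exact pp c.a01 c.a12 c.a23 c.n02 (fun h => c.n30 h.symm) c.n13

section five
variable {v0 v1 v2 v3 v4 : V}

/-- two vertices with two common non-adjacent neighbours are adjacent -/
theorem two_common (h : Cls G) {x y l r : V} (hlr : ¬ G.Adj l r) (hne : l ≠ r) (hxy : x ≠ y)
    (h1 : G.Adj x l) (h2 : G.Adj x r) (h3 : G.Adj y l) (h4 : G.Adj y r) : G.Adj x y := by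
  by_contra hcon
  exact h.c4 x l y r h1 h3.symm h4 h2.symm hcon hlr hxy hne

theorem C5.ne02 (c : C5 G v0 v1 v2 v3 v4) : v0 ≠ v2 := by
  rintro rfl
  exact c.n30 c.a23.symm

/-- `A_0` and `A_2` are anticomplete -/
theorem AA2 (h : Cls G) (c : C5 G v0 v1 v2 v3 v4) {x y : V} (hx : Aof G v4 v1 v2 v3 x)
    (hy : Aof G v1 v3 v4 v0 y) : ¬ G.Adj x y := by
  intro hxy
  refine h.c4 x y v3 v4 hxy hy.2.1 c.a34 hx.1.symm hx.2.2.2 hy.2.2.1 ?_ ?_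
  · exact ne_of h hx.2.1 (fun h => c.n13 h.symm)
  · exact ne_of h hy.1 c.n41

/-- `B_0` is anticomplete to `A_0` -/
theorem BA0 (h : Cls G) (c : C5 G v0 v1 v2 v3 v4) {a b : V} (ha : Aof G v4 v1 v2 v3 a)
    (hb : Bof G v2 v3 v0 v1 v4 b) : ¬ G.Adj a b := by
  intro hab
  refine h.c4 a b v2 v1 hab hb.1 c.a12.symm ha.2.1.symm ha.2.2.1 hb.2.2.2.1 ?_ ?_
  · exact ne_of h ha.1 c.n24
  · exact ne_of h hb.2.1 c.n13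

/-- `B_0` is complete to `B_1` -/
theorem BB1 (h : Cls G) (c : C5 G v0 v1 v2 v3 v4) {a b : V} (ha : Bof G v2 v3 v0 v1 v4 a)
    (hb : Bof G v3 v4 v1 v2 v0 b) : G.Adj a b := by
  by_contra hcon
  exact h.p v0 v1 v2 a b c.a01 c.a12 ha.1.symm c.n02 (fun h => ha.2.2.1 h.symm)
    (fun h => ha.2.2.2.1 h.symm) hb.2.2.2.2 hb.2.2.1 hb.2.2.2.1 (fun h => hcon h.symm)

/-- `B_0` is anticomplete to `B_2` -/
theorem BB2 (h : Cls G) (c : C5 G v0 v1 v2 v3 v4) {a b : V} (ha : Bof G v2 v3 v0 v1 v4 a)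
    (hb : Bof G v4 v0 v2 v3 v1 b) : ¬ G.Adj a b := by
  intro hab
  refine h.c4 a b v4 v3 hab hb.1 c.a34.symm ha.2.1.symm ha.2.2.2.2 hb.2.2.2.1 ?_ ?_
  · exact ne_of h ha.1 (fun h => c.n24 h.symm)
  · exact ne_of h hb.2.1 c.n30

/-- `B_0`, `B_2`, `B_3` are not all nonempty -/
theorem BBB (h : Cls G) (c : C5 G v0 v1 v2 v3 v4) {x y z : V} (hx : Bof G v2 v3 v0 v1 v4 x)
    (hy : Bof G v4 v0 v2 v3 v1 y) (hz : Bof G v0 v1 v3 v4 v2 z) : False := by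
  have hyz : G.Adj y z := BB1 h c.rot.rot hy ⟨hz.1, hz.2.1, hz.2.2.1, hz.2.2.2.1, hz.2.2.2.2⟩
  have hxy : ¬ G.Adj x y := BB2 h c hx hy
  have hxz : ¬ G.Adj x z := fun hxz =>
    BB2 h c.rot.rot.rot ⟨hz.1, hz.2.1, hz.2.2.1, hz.2.2.2.1, hz.2.2.2.2⟩
      ⟨hx.1, hx.2.1, hx.2.2.1, hx.2.2.2.1, hx.2.2.2.2⟩ hxz.symm
  exact h.p v4 y z v1 x hy.1.symm hyz hz.2.1 (fun h => hz.2.2.2.1 h.symm) c.n41 hy.2.2.2.2
    hx.2.2.2.2 hxy hxz hx.2.2.2.1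

end five

end Q109.PC4
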